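import Pool.Agent.WK.Stmts
import Pool.Agent.Helper13_E.Dens
import Pool.Agent.Helper15_E.Line

/-! WK, module DEN: density of the combinations of `q (n + 3/2)`. -/

set_option autoImplicit false

namespace Pool.Agent.WK.H77

open MeasureTheory Filter Topology Complex
open Pool.Agent.H78E Pool.Agent.WK

noncomputable section

/-- truncation -/
def tr (k : ℕ) (f : ℝ → ℂ) (t : ℝ) : ℂ :=
  if 1 / ((k : ℝ) + 1) ≤ t ∧ t ≤ (k : ℝ) + 1 then f t else 0

theorem tr_zero (k : ℕ) (f : ℝ → ℂ) {t : ℝ} (ht : t ≤ 0) : tr k f t = 0 := by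
  unfold tr
  rw [if_neg]
  rintro ⟨h, _⟩
  have : 0 < 1 / ((k : ℝ) + 1) := by positivity
  linarith

theorem tr_meas (k : ℕ) {f : ℝ → ℂ} (hf : AEStronglyMeasurable f volume) :
    AEStronglyMeasurable (tr k f) volume := by
  have h : tr k f = Set.indicator (Set.Icc (1 / ((k : ℝ) + 1)) ((k : ℝ) + 1)) f := by
    funext t
    unfold tr
    by_cases ht : t ∈ Set.Icc (1 / ((k : ℝ) + 1)) ((k : ℝ) + 1)
    · rw [Set.indicator_of_mem ht]
      exact if_pos ht
    · rw [Set.indicator_of_notMem ht]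
      exact if_neg ht
  rw [h]
  exact hf.indicator measurableSet_Icc

theorem tr_le (k : ℕ) (f : ℝ → ℂ) (t : ℝ) : ‖f t - tr k f t‖ ≤ ‖f t‖ := by
  unfold tr
  split_ifs
  · rw [sub_self, norm_zero]
    exact norm_nonneg _
  · rw [sub_zero]

theorem tr_tendsto {φ : ℝ → ℝ} (hφ : IsWeight φ) {f : ℝ → ℂ} (hf : LP φ f) :
    Tendsto (fun k : ℕ => ∫ t : ℝ, φ t * ‖f t - tr k f t‖) atTop (𝓝 0) := by
  have h0 : (0 : ℝ) = ∫ _t : ℝ, (0 : ℝ) := by simp
  rw [h0]
  refine tendsto_integral_of_dominated_convergence (fun t => φ t * ‖f t‖) ?_ hf.1.2 ?_ ?_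
  · intro k
    exact hφ.meas.aestronglyMeasurable.mul (hf.1.1.sub (tr_meas k hf.1.1)).norm
  · intro k
    refine Eventually.of_forall fun t => ?_
    have hp : 0 ≤ φ t := zero_le_one.trans (hφ.one_le t)
    rw [Real.norm_eq_abs, abs_of_nonneg (mul_nonneg hp (norm_nonneg _))]
    exact mul_le_mul_of_nonneg_left (tr_le k f t) hp
  · have h1 : ∀ᵐ t : ℝ, t ≠ 0 := by
      rw [ae_iff]
      simp
    filter_upwards [h1] with t ht
    refine tendsto_const_nhds.congr' ?_
    rcases lt_or_gt_of_ne ht with h | h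
    · refine Eventually.of_forall fun k => ?_
      simp only
      rw [tr_zero k f h.le, hf.2 t h, sub_zero, norm_zero, mul_zero]
    · have h2 : ∀ᶠ k : ℕ in atTop, 1 / ((k : ℝ) + 1) ≤ t := by
        have h3 := tendsto_one_div_add_atTop_nhds_zero_nat (𝕜 := ℝ)
        exact (h3.eventually_lt_const h).mono fun _ h => h.le
      have h4 : ∀ᶠ k : ℕ in atTop, t ≤ (k : ℝ) + 1 := by
        have h5 : Tendsto (fun k : ℕ => (k : ℝ) + 1) atTop atTop :=
          tendsto_atTop_add_const_right _ _ tendsto_natCast_atTop_atTop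
        exact h5.eventually_ge_atTop t
      filter_upwards [h2, h4] with k h2 h4
      unfold tr
      rw [if_pos ⟨h2, h4⟩, sub_self, norm_zero, mul_zero]

theorem cube_le {t : ℝ} (ht : 0 ≤ t) : t ^ 3 ≤ 384 * Real.exp (t / 4) := by
  have h := Real.pow_div_factorial_le_exp (t / 4) (by positivity) 3
  have h1 : (Nat.factorial 3 : ℝ) = 6 := by norm_num [Nat.factorial]
  rw [h1, div_pow] at h
  rw [div_div, div_le_iff₀ (by norm_num)] at h
  linarith

/-- the weight -/
theorem w_bound {φ : ℝ → ℝ} (hφ : IsWeight φ) : ∃ B : ℝ, 0 < B ∧ ∀ t : ℝ, 0 ≤ t →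
    φ t * (t ^ 3 * Real.exp (-(t / 2))) ≤ B := by
  obtain ⟨C, hC, h⟩ := Helper15_E.weight_bound hφ (show (0 : ℝ) < 1 / 4 by norm_num)
  refine ⟨C * 384, by positivity, fun t ht => ?_⟩
  have h1 := h t
  rw [abs_of_nonneg ht] at h1
  have h2 := cube_le ht
  calc φ t * (t ^ 3 * Real.exp (-(t / 2))) ≤
      (C * Real.exp (1 / 4 * t)) * ((384 * Real.exp (t / 4)) * Real.exp (-(t / 2))) := by
        refine mul_le_mul h1 (mul_le_mul_of_nonneg_right h2 (Real.exp_pos _).le) ?_ ?_
        · positivity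
        · positivity
    _ = C * 384 * (Real.exp (1 / 4 * t) * Real.exp (t / 4) * Real.exp (-(t / 2))) := by ring
    _ = C * 384 := by
      rw [← Real.exp_add, ← Real.exp_add]
      have : 1 / 4 * t + t / 4 + -(t / 2) = 0 := by ring
      rw [this, Real.exp_zero, mul_one]

theorem q_eq (n : ℕ) {t : ℝ} (ht : 0 ≤ t) : (6 / ((n : ℂ) + 3 / 2) ^ 4) * q ((n : ℝ) + 3 / 2) t =
    ((t ^ 3 * Real.exp (-(t / 2)) : ℝ) : ℂ) * Complex.exp (-(((n : ℂ) + 1) * (t : ℂ))) := by
  have h0 : ((n : ℂ) + 3 / 2) ≠ 0 := by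
    have h1 : ((n : ℝ) + 3 / 2) ≠ 0 := by positivity
    intro h
    apply h1
    have h2 : (((n : ℝ) + 3 / 2 : ℝ) : ℂ) = 0 := by
      push_cast
      exact h
    exact_mod_cast h2
  have h1 : Complex.exp (-(((n : ℂ) + 1) * (t : ℂ))) =
      ((Real.exp (-(((n : ℝ) + 1) * t)) : ℝ) : ℂ) := by
    rw [Complex.ofReal_exp]
    push_cast
    rfl
  have h2 : Real.exp (-(((n : ℝ) + 3 / 2) * t)) = Real.exp (-(t / 2)) *
      Real.exp (-(((n : ℝ) + 1) * t)) := by
    rw [← Real.exp_add]
    congr 1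
    ring
  unfold q
  rw [if_pos ht, h1, h2]
  push_cast
  have h3 : ((n : ℂ) + 3 / 2) ^ 4 ≠ 0 := pow_ne_zero 4 h0
  calc (6 / ((n : ℂ) + 3 / 2) ^ 4) * (((n : ℂ) + 3 / 2) ^ 4 * (t : ℂ) ^ 3 / 6 *
        (Complex.exp (-((t : ℂ) / 2)) * Complex.exp (-(((n : ℂ) + 1) * (t : ℂ))))) =
      (((n : ℂ) + 3 / 2) ^ 4 / ((n : ℂ) + 3 / 2) ^ 4) * ((t : ℂ) ^ 3 *
        Complex.exp (-((t : ℂ) / 2)) * Complex.exp (-(((n : ℂ) + 1) * (t : ℂ)))) := by ring
    _ = _ := by rw [div_self h3, one_mul]

theorem den : DenStmt := by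
  intro φ hφ f hf ε hε
  have hpos : ∀ t, 0 ≤ φ t := fun t => zero_le_one.trans (hφ.one_le t)
  obtain ⟨k, hk⟩ := ((tr_tendsto hφ hf).eventually_lt_const (half_pos hε)).exists
  obtain ⟨B, hB, hBw⟩ := w_bound hφ
  set g : ℝ → ℂ := tr k f with hg
  have hgm : AEStronglyMeasurable g volume := tr_meas k hf.1.1
  have hfint : Integrable f volume := by
    refine Integrable.mono' hf.1.2 hf.1.1 (Eventually.of_forall fun t => ?_)
    nlinarith [hφ.one_le t, norm_nonneg (f t)]
  -- the function to be approximated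
  set h : ℝ → ℂ := fun t => g t * ((Real.exp (t / 2) / t ^ 3 : ℝ) : ℂ) with hh
  have hhm : AEStronglyMeasurable h (volume.restrict (Set.Ioi 0)) := by
    refine (hgm.mono_measure Measure.restrict_le_self).mul ?_
    refine (Measurable.aestronglyMeasurable ?_)
    exact Complex.measurable_ofReal.comp (by fun_prop)
  set r : ℝ := 1 / ((k : ℝ) + 1) with hr
  have hr0 : 0 < r := by positivity
  have hhint : IntegrableOn h (Set.Ioi 0) volume := by
    refine Integrable.mono' ((hfint.norm.const_mul (Real.exp (((k : ℝ) + 1) / 2) / r ^ 3)).integrableOn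
      (s := Set.Ioi 0)) hhm (Eventually.of_forall fun t => ?_)
    simp only [hh, hg]
    unfold tr
    split_ifs with hcase
    · rw [norm_mul, mul_comm, Complex.norm_real, Real.norm_eq_abs]
      have ht0 : 0 < t := lt_of_lt_of_le hr0 hcase.1
      rw [abs_of_nonneg (by positivity)]
      refine mul_le_mul_of_nonneg_right ?_ (norm_nonneg _)
      refine div_le_div₀ (Real.exp_pos _).le (Real.exp_le_exp.2 (by linarith [hcase.2]))
        (by positivity) (pow_le_pow_left₀ hr0.le hcase.1 3)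
    · rw [zero_mul, norm_zero]
      positivity
  obtain ⟨N, c, hNc⟩ := Pool.Agent.H78E.H13.dens h hhint (ε / (2 * B)) (by positivity)
  set E : ℝ → ℂ := fun t => ∑ n ∈ Finset.range N, c n * Complex.exp (-(((n : ℂ) + 1) * (t : ℂ)))
    with hE
  have hEint : IntegrableOn E (Set.Ioi 0) volume := by
    refine integrable_finsetSum _ fun n _ => ?_
    refine Integrable.const_mul ?_ _
    have h1 := integrableOn_exp_mul_complex_Ioi (a := -((n : ℂ) + 1)) (by
      simp only [neg_add_rev, add_re, neg_re, one_re, natCast_re]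
      have : (0 : ℝ) ≤ n := Nat.cast_nonneg n
      linarith) 0
    refine h1.congr_fun (fun t _ => ?_) measurableSet_Ioi
    simp only
    congr 1
    ring
  refine ⟨N, fun n => c n * (6 / ((n : ℂ) + 3 / 2) ^ 4), ?_⟩
  set S : ℝ → ℂ := fun t => ∑ n ∈ Finset.range N, c n * (6 / ((n : ℂ) + 3 / 2) ^ 4) *
    q ((n : ℝ) + 3 / 2) t with hS
  have hSeq : ∀ t : ℝ, 0 ≤ t → S t = ((t ^ 3 * Real.exp (-(t / 2)) : ℝ) : ℂ) * E t := by
    intro t ht
    simp only [hS, hE]
    rw [Finset.mul_sum]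
    refine Finset.sum_congr rfl fun n _ => ?_
    rw [mul_assoc, q_eq n ht]
    ring
  have hS0 : ∀ t : ℝ, t ≤ 0 → S t = 0 := by
    intro t ht
    rcases ht.lt_or_eq with h1 | h1
    · simp only [hS]
      refine Finset.sum_eq_zero fun n _ => ?_
      unfold q
      rw [if_neg (not_le.2 h1), mul_zero]
    · rw [hSeq t h1.ge, h1]
      simp
  set F2 : ℝ → ℝ := fun t => φ t * ‖g t - S t‖ with hF2
  have hF20 : ∀ t : ℝ, t ∉ Set.Ioi (0 : ℝ) → F2 t = 0 := by
    intro t ht
    rw [Set.mem_Ioi, not_lt] at ht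
    simp only [hF2, hg]
    rw [tr_zero k f ht, hS0 t ht, sub_zero, norm_zero, mul_zero]
  have hF2le : ∀ t ∈ Set.Ioi (0 : ℝ), F2 t ≤ B * ‖h t - E t‖ := by
    intro t ht
    rw [Set.mem_Ioi] at ht
    have h1 : g t - S t = ((t ^ 3 * Real.exp (-(t / 2)) : ℝ) : ℂ) * (h t - E t) := by
      rw [mul_sub, ← hSeq t ht.le]
      congr 1
      simp only [hh]
      have h2 : (t ^ 3 * Real.exp (-(t / 2))) * (Real.exp (t / 2) / t ^ 3) = 1 := by
        rw [Real.exp_neg]
        field_simp
      have h3 := congrArg (fun x : ℝ => (x : ℂ)) h2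
      simp only [Complex.ofReal_mul, Complex.ofReal_one] at h3
      calc g t = g t * 1 := (mul_one _).symm
        _ = _ := by
          rw [← h3]
          push_cast
          ring
    simp only [hF2]
    rw [h1, norm_mul, Complex.norm_real, Real.norm_eq_abs, abs_of_nonneg (by positivity),
      ← mul_assoc]
    exact mul_le_mul_of_nonneg_right (hBw t ht.le) (norm_nonneg _)
  have hSm : Measurable S := by
    refine Finset.measurable_sum _ fun n _ => ?_
    refine Measurable.const_mul ?_ _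
    unfold q
    refine Measurable.ite measurableSet_Ici ?_ measurable_const
    exact Complex.measurable_ofReal.comp (by fun_prop)
  have hF2m : AEStronglyMeasurable F2 volume :=
    hφ.meas.aestronglyMeasurable.mul (hgm.sub hSm.aestronglyMeasurable).norm
  have hdom : IntegrableOn (fun t => B * ‖h t - E t‖) (Set.Ioi 0) volume :=
    ((hhint.sub hEint).norm).const_mul B
  have hF2on : IntegrableOn F2 (Set.Ioi 0) volume := by
    refine Integrable.mono' hdom (hF2m.mono_measure Measure.restrict_le_self) ?_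
    filter_upwards [ae_restrict_mem measurableSet_Ioi] with t ht
    rw [Real.norm_eq_abs, abs_of_nonneg (mul_nonneg (hpos t) (norm_nonneg _))]
    exact hF2le t ht
  have hF2int : Integrable F2 volume :=
    (integrableOn_iff_integrable_of_support_subset fun t ht => by
      by_contra hcon
      exact ht (hF20 t hcon)).1 hF2on
  have hF2lt : ∫ t : ℝ, F2 t < ε / 2 := by
    rw [← setIntegral_eq_integral_of_forall_compl_eq_zero hF20]
    calc ∫ t in Set.Ioi (0 : ℝ), F2 t ≤ ∫ t in Set.Ioi (0 : ℝ), B * ‖h t - E t‖ :=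
          setIntegral_mono_on hF2on hdom measurableSet_Ioi hF2le
      _ = B * ∫ t in Set.Ioi (0 : ℝ), ‖h t - E t‖ := integral_const_mul _ _
      _ < B * (ε / (2 * B)) := mul_lt_mul_of_pos_left hNc hB
      _ = ε / 2 := by field_simp
  have hF1int : Integrable (fun t : ℝ => φ t * ‖f t - g t‖) volume := by
    refine Integrable.mono' hf.1.2 (hφ.meas.aestronglyMeasurable.mul (hf.1.1.sub hgm).norm)
      (Eventually.of_forall fun t => ?_)
    rw [Real.norm_eq_abs, abs_of_nonneg (mul_nonneg (hpos t) (norm_nonneg _))]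
    exact mul_le_mul_of_nonneg_left (tr_le k f t) (hpos t)
  calc ∫ t : ℝ, φ t * ‖f t - S t‖ ≤ ∫ t : ℝ, (φ t * ‖f t - g t‖ + F2 t) := by
        refine integral_mono_of_nonneg
          (Eventually.of_forall fun t => mul_nonneg (hpos t) (norm_nonneg _))
          (hF1int.add hF2int) (Eventually.of_forall fun t => ?_)
        simp only [hF2]
        rw [← mul_add]
        refine mul_le_mul_of_nonneg_left ?_ (hpos t)
        have e : f t - S t = (f t - g t) + (g t - S t) := by ring
        rw [e]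
        exact norm_add_le _ _
    _ = (∫ t : ℝ, φ t * ‖f t - g t‖) + ∫ t : ℝ, F2 t := integral_add hF1int hF2int
    _ < ε / 2 + ε / 2 := add_lt_add hk hF2lt
    _ = ε := by ring

end

end Pool.Agent.WK.H77
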